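import Pool.Agent.Lib.MP_7beb49_co.Transfer
import Pool.Agent.Lib.MP_7beb49_co.Balls

/-!
# The gap of one constituent passes to almost all constituents

For a primitive coherent configuration, vertices `x ≠ y`, `i = c x y` and `η = 1 - λ_2(X_i) / d_i`:
`∑_{w ≠ v} ξ(X_{c v w}) / d(X_{c v w}) ≤ 2 (D(x, y) - 1) / √(2 η)`.
Together with the lower bound of `η` by the size of the balls of `X_i`.
-/

set_option autoImplicit false

namespace Pool.Agent.Results.MP_7beb49_co.GapTransfer

open Finset Pool.Agent.Lib.MP_7beb49_co Pool.Agent.Lib.MP_7beb49_co.Diff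

variable {V κ : Type} [Fintype V] {c : V → V → κ}

/-- The second eigenvalue is at most `ξ`. -/
theorem lam2_le_xi (X : SimpleGraph V) : lam2 X ≤ xi X := by
  classical
  have hbdd : BddAbove {t : ℝ | ∃ (θ : ℝ) (f : V → ℝ), f ≠ 0 ∧ ∑ v, f v = 0 ∧
      (X.adjMatrix ℝ).mulVec f = θ • f ∧ t = |θ|} := by
    refine ⟨Fintype.card V, ?_⟩
    rintro t ⟨θ, f, hf, _, hev, rfl⟩
    obtain ⟨x, hx⟩ : ∃ x, f x ≠ 0 := by
      by_contra hcon
      push Not at hcon
      exact hf (funext hcon)
    obtain ⟨m, _, hm⟩ := Finset.exists_max_image univ (fun v => |f v|) ⟨x, Finset.mem_univ _⟩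
    have hm0 : 0 < |f m| := lt_of_lt_of_le (abs_pos.2 hx) (hm x (Finset.mem_univ _))
    have h1 := congrFun hev m
    rw [Pi.smul_apply, smul_eq_mul, Matrix.mulVec, dotProduct] at h1
    have h2 : |θ| * |f m| ≤ Fintype.card V * |f m| := by
      rw [← abs_mul, ← h1]
      refine (Finset.abs_sum_le_sum_abs _ _).trans ?_
      have h3 : ∀ w ∈ (univ : Finset V), |X.adjMatrix ℝ m w * f w| ≤ |f m| := by
        intro w _
        rw [SimpleGraph.adjMatrix_apply]
        split_ifs
        · rw [one_mul]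
          exact hm w (Finset.mem_univ _)
        · rw [zero_mul, abs_zero]
          exact abs_nonneg _
      refine (Finset.sum_le_sum h3).trans ?_
      rw [Finset.sum_const, Finset.card_univ, nsmul_eq_mul]
    exact le_of_mul_le_mul_right h2 hm0
  have hxi0 : 0 ≤ xi X := by
    apply Real.sSup_nonneg
    rintro t ⟨θ, f, _, _, _, rfl⟩
    exact abs_nonneg _
  apply Real.sSup_le _ hxi0
  rintro θ ⟨f, hf, hf0, hev⟩
  refine (le_abs_self θ).trans (le_csSup hbdd ?_)
  exact ⟨θ, f, hf, hf0, hev, rfl⟩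

open Classical in
/-- **Main theorem.** -/
theorem result : ∀ (V κ : Type) [Fintype V] (c : V → V → κ), IsPCC c → 3 ≤ Fintype.card V →
    ∀ x y : V, x ≠ y → ∀ v : V,
    -- (A)
    (∀ s : ℕ, 1 ≤ s →
      (deg (constituent c (c x y)) v : ℝ) *
          min (1 / (2 * (s : ℝ)))
            (({w | (constituent c (c x y)).dist v w ≤ s}.ncard : ℝ) / (24 * s * (Dmin c : ℝ))) ^ 2
        ≤ (deg (constituent c (c x y)) v : ℝ) - xi (constituent c (c x y))) ∧
    -- (B)
    (∑ w ∈ univ.erase v, xi (constituent c (c v w)) / (deg (constituent c (c v w)) v : ℝ)) *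
        Real.sqrt (2 * (1 - lam2 (constituent c (c x y)) / (deg (constituent c (c x y)) v : ℝ))) ≤
      2 * ((distinguishing c x y : ℝ) - 1) ∧
    -- (C)
    (∀ (s : ℕ) (δ : ℝ), 1 ≤ s →
      (1 - δ) * ({w | w ≠ v ∧ (deg (constituent c (c v w)) v : ℝ) - xi (constituent c (c v w)) <
          δ * (deg (constituent c (c v w)) v : ℝ)}.ncard : ℝ) *
        min (1 / (2 * (s : ℝ)))
          (({w | (constituent c (c x y)).dist v w ≤ s}.ncard : ℝ) / (24 * s * (Dmin c : ℝ))) ≤
      Real.sqrt 2 * ((distinguishing c x y : ℝ) - 1)) := by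
  intro V κ _ c hc hn x y hxy v
  have hA : ∀ s : ℕ, 1 ≤ s →
      (deg (constituent c (c x y)) v : ℝ) *
          min (1 / (2 * (s : ℝ)))
            (({w | (constituent c (c x y)).dist v w ≤ s}.ncard : ℝ) / (24 * s * (Dmin c : ℝ))) ^ 2
        ≤ (deg (constituent c (c x y)) v : ℝ) - xi (constituent c (c x y)) := by
    intro s hs
    have h1 := Balls.gap_balls V κ c hc hn x y hxy v s hs
    have hs0 : (0 : ℝ) < s := by exact_mod_cast hs
    set β := min (1 / (2 * (s : ℝ)))
      (({w | (constituent c (c x y)).dist v w ≤ s}.ncard : ℝ) / (24 * s * (Dmin c : ℝ))) with hβ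
    have hβ0 : 0 ≤ β := le_min (by positivity) (by positivity)
    refine le_trans (mul_le_mul_of_nonneg_left (le_min ?_ ?_) (Nat.cast_nonneg _)) h1
    · calc β ^ 2 ≤ (1 / (2 * (s : ℝ))) ^ 2 := pow_le_pow_left₀ hβ0 (min_le_left _ _) 2
        _ = 1 / (4 * (s : ℝ) ^ 2) := by
            field_simp
            norm_num
    · exact pow_le_pow_left₀ hβ0 (min_le_right _ _) 2
  have hB := transfer hc hxy v
  refine ⟨hA, hB, ?_⟩
  intro s δ hs
  have hs0 : (0 : ℝ) < s := by exact_mod_cast hs
  set H := constituent c (c x y) with hH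
  set d : ℝ := (deg H v : ℝ) with hd
  set β := min (1 / (2 * (s : ℝ))) (({w | H.dist v w ≤ s}.ncard : ℝ) / (24 * s * (Dmin c : ℝ))) with hβ
  have hβ0 : 0 ≤ β := le_min (by positivity) (by positivity)
  have hD0 : (0 : ℝ) ≤ (distinguishing c x y : ℝ) - 1 := by
    have h1 : 1 ≤ distinguishing c x y := by
      rw [distinguishing, Nat.one_le_iff_ne_zero, ← Nat.pos_iff_ne_zero, Set.ncard_pos (Set.toFinite _)]
      exact ⟨x, hc.diag_ne x x y hxy⟩
    have h2 : (1 : ℝ) ≤ (distinguishing c x y : ℝ) := by exact_mod_cast h1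
    linarith
  have hdpos : 0 < d := by
    have h1 : 0 < deg H x := by
      rw [deg_eq]
      refine Finset.card_pos.2 ⟨y, ?_⟩
      rw [Finset.mem_filter, hH, constituent, SimpleGraph.fromRel_adj]
      exact ⟨Finset.mem_univ _, hxy, Or.inl rfl⟩
    rw [hd, deg_const hc (c x y) v x]
    exact_mod_cast h1
  -- the square root is at least `√2 β`
  have h1 : Real.sqrt 2 * β ≤ Real.sqrt (2 * (1 - lam2 H / d)) := by
    apply Real.le_sqrt_of_sq_le
    rw [mul_pow, Real.sq_sqrt (by norm_num)]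
    refine mul_le_mul_of_nonneg_left ?_ (by norm_num)
    have h2 := hA s hs
    have h3 := lam2_le_xi H
    have h4 : lam2 H / d ≤ 1 - β ^ 2 := by
      rw [div_le_iff₀ hdpos]
      linarith
    linarith
  -- the sum
  set B : Set V := {w | w ≠ v ∧ (deg (constituent c (c v w)) v : ℝ) - xi (constituent c (c v w)) <
    δ * (deg (constituent c (c v w)) v : ℝ)} with hBdef
  have hxi0 : ∀ X : SimpleGraph V, 0 ≤ xi X := by
    intro X
    apply Real.sSup_nonneg
    rintro t ⟨θ, f, _, _, _, rfl⟩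
    exact abs_nonneg _
  have hS0 : 0 ≤ ∑ w ∈ univ.erase v, xi (constituent c (c v w)) / (deg (constituent c (c v w)) v : ℝ) :=
    Finset.sum_nonneg fun w _ => div_nonneg (hxi0 _) (Nat.cast_nonneg _)
  have h2 : (1 - δ) * (B.ncard : ℝ) ≤
      ∑ w ∈ univ.erase v, xi (constituent c (c v w)) / (deg (constituent c (c v w)) v : ℝ) := by
    have h3 : B.ncard = ((univ.erase v).filter fun w => w ∈ B).card := by
      rw [Set.ncard_eq_toFinset_card']
      congr 1
      ext w
      simp only [Set.mem_toFinset, Finset.mem_filter, Finset.mem_erase, Finset.mem_univ, and_true]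
      constructor
      · intro h4
        exact ⟨h4.1, h4⟩
      · intro h4
        exact h4.2
    rw [h3, mul_comm, ← nsmul_eq_mul, ← Finset.sum_const]
    refine le_trans (Finset.sum_le_sum (g := fun w => xi (constituent c (c v w)) /
      (deg (constituent c (c v w)) v : ℝ)) ?_) (Finset.sum_le_sum_of_subset_of_nonneg
        (Finset.filter_subset _ _) fun w _ _ => div_nonneg (hxi0 _) (Nat.cast_nonneg _))
    intro w hw
    have h4 := (Finset.mem_filter.1 hw).2
    have hw0 : (0 : ℝ) < (deg (constituent c (c v w)) v : ℝ) := by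
      rw [deg_eq]
      refine Nat.cast_pos.2 (Finset.card_pos.2 ⟨w, ?_⟩)
      rw [Finset.mem_filter, constituent, SimpleGraph.fromRel_adj]
      exact ⟨Finset.mem_univ _, h4.1.symm, Or.inl rfl⟩
    rw [le_div_iff₀ hw0]
    have h5 := h4.2
    linarith
  have h3 : (1 - δ) * (B.ncard : ℝ) * β ≤
      (∑ w ∈ univ.erase v, xi (constituent c (c v w)) / (deg (constituent c (c v w)) v : ℝ)) * β :=
    mul_le_mul_of_nonneg_right h2 hβ0
  have h4 : (∑ w ∈ univ.erase v, xi (constituent c (c v w)) / (deg (constituent c (c v w)) v : ℝ)) *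
      (Real.sqrt 2 * β) ≤ 2 * ((distinguishing c x y : ℝ) - 1) :=
    (mul_le_mul_of_nonneg_left h1 hS0).trans hB
  have h5 : Real.sqrt 2 * Real.sqrt 2 = 2 := Real.mul_self_sqrt (by norm_num)
  have h6 : 0 < Real.sqrt 2 := Real.sqrt_pos.2 (by norm_num)
  have h7 : Real.sqrt 2 * ((∑ w ∈ univ.erase v,
      xi (constituent c (c v w)) / (deg (constituent c (c v w)) v : ℝ)) * β) ≤
      Real.sqrt 2 * (Real.sqrt 2 * ((distinguishing c x y : ℝ) - 1)) := by
    rw [← mul_assoc (Real.sqrt 2) (Real.sqrt 2), h5]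
    linarith
  exact h3.trans (le_of_mul_le_mul_left h7 h6)

end Pool.Agent.Results.MP_7beb49_co.GapTransfer
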