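import Pool.Agent.Lib.MP_7beb49_co.Metric

/-!
# Metric primitive coherent configurations have expanding constituents

If a primitive coherent configuration is metric (the configuration of a distance-regular graph of
arbitrary diameter) and has `2 D_min < n`, or the graph has valency at least three, then for all
`δ > 0` and every vertex `v` at most `72 √δ n` vertices `w` are such that the constituent of the
colour of `(v, w)` has spectral gap less than `δ k`; in particular some constituent has spectral
gap at least `k / 20736`.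
-/

set_option autoImplicit false

namespace Pool.Agent.Results.MP_7beb49_co.MetricConfigurations

open Pool.Agent.Lib.MP_7beb49_co

/-- **Main theorem.** -/
theorem result : ∀ (V κ : Type) [Fintype V] (c : V → V → κ), IsPCC c →
    ∀ x y : V, x ≠ y →
    (∀ u v u' v' : V, (constituent c (c x y)).dist u v = (constituent c (c x y)).dist u' v' →
      c u v = c u' v') →
    (3 ≤ deg (constituent c (c x y)) x ∨ 2 * Dmin c < Fintype.card V) →
    (∀ δ : ℝ, 0 < δ → ∀ v : V,
      ({w | w ≠ v ∧ (deg (constituent c (c v w)) v : ℝ) - xi (constituent c (c v w))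
        < δ * (deg (constituent c (c v w)) v : ℝ)}.ncard : ℝ)
        ≤ 72 * Real.sqrt δ * (Fintype.card V : ℝ)) ∧
    (∀ v : V, ∃ w, w ≠ v ∧ (1 / 20736 : ℝ) * (deg (constituent c (c v w)) v : ℝ) ≤
      (deg (constituent c (c v w)) v : ℝ) - xi (constituent c (c v w))) := by
  classical
  intro V κ _ c hc x y hxy hmet hval
  set G := constituent c (c x y) with hGdef
  have hG : Metric c G := ⟨hc.primitive x y hxy, hmet, fun u v u' v' h =>
    dist_eq_of_color hc (hc.primitive x y hxy) h⟩
  have hdegc : ∀ u w, (G.neighborSet u).ncard = (G.neighborSet w).ncard := by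
    intro u w
    exact ncard_eq hc (P := fun a b => G.Adj a b) (fun _ _ _ _ h => hG.adj_iff h) u w
  -- `D_min` is attained
  have hne : {d | ∃ a b, a ≠ b ∧ d = distinguishing c a b}.Nonempty := ⟨_, x, y, hxy, rfl⟩
  obtain ⟨a, b, hab, hD⟩ := Nat.sInf_mem hne
  have hDmin : Dmin c = distinguishing c a b := hD
  have hDpos : 1 ≤ Dmin c := by
    rw [hDmin, distinguishing]
    refine (Set.ncard_pos (Set.toFinite _)).2 ⟨a, ?_⟩
    exact hc.diag_ne a a b hab
  -- the valency is at least three
  have hk : ∀ v, 3 ≤ (G.neighborSet v).ncard := by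
    intro v
    rw [hdegc v x]
    rcases hval with h | h
    · exact h
    · by_contra hcon
      push Not at hcon
      have h1 := hG.card_le_two_mul hc (by omega) (fun v => by rw [hdegc v x]; omega) hab
      omega
  have hn : 4 ≤ Fintype.card V := by
    have h1 : (insert x (G.neighborSet x)).ncard = (G.neighborSet x).ncard + 1 :=
      Set.ncard_insert_of_notMem (by simp) (Set.toFinite _)
    have h2 : (insert x (G.neighborSet x)).ncard ≤ Fintype.card V := by
      rw [← Nat.card_eq_fintype_card, ← Set.ncard_univ]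
      exact Set.ncard_le_ncard (Set.subset_univ _) (Set.toFinite _)
    have h3 := hk x
    omega
  have hnpos : (0 : ℝ) < Fintype.card V := by
    have : 0 < Fintype.card V := by omega
    exact_mod_cast this
  have main : ∀ δ : ℝ, 0 < δ → ∀ v : V,
      ({w | w ≠ v ∧ (deg (constituent c (c v w)) v : ℝ) - xi (constituent c (c v w))
        < δ * (deg (constituent c (c v w)) v : ℝ)}.ncard : ℝ)
        ≤ 72 * Real.sqrt δ * (Fintype.card V : ℝ) := by
    intro δ hδ v
    set B : Set V := {w | w ≠ v ∧ (deg (constituent c (c v w)) v : ℝ) -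
      xi (constituent c (c v w)) < δ * (deg (constituent c (c v w)) v : ℝ)} with hB
    have hBn : (B.ncard : ℝ) ≤ Fintype.card V := by
      have : B.ncard ≤ Fintype.card V := by
        rw [← Nat.card_eq_fintype_card, ← Set.ncard_univ]
        exact Set.ncard_le_ncard (Set.subset_univ _) (Set.toFinite _)
      exact_mod_cast this
    set r := Real.sqrt δ with hr
    have hr2 : r ^ 2 = δ := Real.sq_sqrt hδ.le
    have hr0 : 0 < r := Real.sqrt_pos.2 hδ
    by_cases hbig : 1 / 4 ≤ δ
    · have h1 : 1 / 2 ≤ r := by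
        by_contra h
        push Not at h
        nlinarith
      nlinarith
    push Not at hbig
    -- the eccentricity
    set D : ℕ := Finset.univ.sup (fun w => G.dist v w) with hDdef
    have hDle : ∀ w, G.dist v w ≤ D := fun w =>
      Finset.le_sup (f := fun w => G.dist v w) (Finset.mem_univ w)
    obtain ⟨z, -, hz⟩ : ∃ z ∈ (Finset.univ : Finset V), D = G.dist v z :=
      Finset.exists_mem_eq_sup _ ⟨v, Finset.mem_univ v⟩ _
    have hDpos' : 1 ≤ D := by
      obtain ⟨w, hw⟩ : ∃ w, w ≠ v := by
        by_contra h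
        push Not at h
        have : Fintype.card V ≤ 1 := Fintype.card_le_one_iff.2 (fun a b => by rw [h a, h b])
        omega
      have h1 := hG.conn.pos_dist_of_ne hw.symm
      have h2 := hDle w
      omega
    have hDR : (0 : ℝ) < (D : ℝ) := by exact_mod_cast hDpos'
    -- each layer
    have hlayer : ∀ a : ℕ, (({w | w ∈ B ∧ G.dist v w = a}.ncard : ℕ) : ℝ) * (D : ℝ) ≤
        72 * r * (Fintype.card V : ℝ) := by
      intro a
      by_cases hemp : {w | w ∈ B ∧ G.dist v w = a} = ∅
      · rw [hemp, Set.ncard_empty, Nat.cast_zero, zero_mul]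
        positivity
      · obtain ⟨w₀, hw₀⟩ := Set.nonempty_iff_ne_empty.2 hemp
        have hw₀B : w₀ ≠ v ∧ (deg (constituent c (c v w₀)) v : ℝ) -
            xi (constituent c (c v w₀)) < δ * (deg (constituent c (c v w₀)) v : ℝ) := hw₀.1
        have hw₀a : G.dist v w₀ = a := hw₀.2
        set H := constituent c (c v w₀) with hH
        set dH : ℝ := (deg H v : ℝ) with hdH
        have hdHpos : 0 < dH := by
          have h1 : 0 < deg H v := by
            rw [deg, Set.ncard_pos (Set.toFinite _)]
            refine ⟨w₀, ?_⟩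
            rw [SimpleGraph.mem_neighborSet, hH, constituent, SimpleGraph.fromRel_adj]
            exact ⟨hw₀B.1.symm, Or.inl rfl⟩
          rw [hdH]
          exact_mod_cast h1
        have hxi : (1 - δ) * dH < xi H := by
          have := hw₀B.2
          linarith
        have hneS : {t | ∃ (θ : ℝ) (f : V → ℝ), f ≠ 0 ∧ ∑ v, f v = 0 ∧
            (H.adjMatrix ℝ).mulVec f = θ • f ∧ t = |θ|}.Nonempty := by
          by_contra hcon
          rw [Set.not_nonempty_iff_eq_empty] at hcon
          have h1 : xi H = 0 := by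
            rw [xi]
            have h2 : {t | ∃ (θ : ℝ) (f : V → ℝ), f ≠ 0 ∧ ∑ v, f v = 0 ∧
              (H.adjMatrix ℝ).mulVec f = θ • f ∧ t = |θ|} = ∅ := hcon
            convert Real.sSup_empty
          rw [h1] at hxi
          nlinarith
        have hxi' : (1 - δ) * dH < sSup {t | ∃ (θ : ℝ) (f : V → ℝ), f ≠ 0 ∧ ∑ v, f v = 0 ∧
            (H.adjMatrix ℝ).mulVec f = θ • f ∧ t = |θ|} := by
          rw [xi] at hxi
          convert hxi
        obtain ⟨t, ⟨θ, f, hf, hf0, hev, rfl⟩, ht⟩ := exists_lt_of_lt_csSup hneS hxi'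
        obtain ⟨Q, hQ, hAQ⟩ := exists_proj_of_eigen hc (c v w₀) hf hf0 (by convert hev)
        have hpos := hQ.pos hc v
        have hentry : dH * Q v w₀ = θ * Q v v := hQ.entry (x := v) (y := w₀) hAQ v
        have hpar : (1 - 2 * δ) * Q v v ^ 2 ≤ Q v w₀ ^ 2 := by
          have h1 : dH ^ 2 * Q v w₀ ^ 2 = θ ^ 2 * Q v v ^ 2 := by
            rw [← mul_pow, hentry, mul_pow]
          have h2 : ((1 - δ) * dH) ^ 2 ≤ θ ^ 2 := by
            rw [← sq_abs θ]
            have : 0 ≤ (1 - δ) * dH := by nlinarith
            exact pow_le_pow_left₀ this ht.le 2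
          have h3 : (1 - 2 * δ) * dH ^ 2 ≤ ((1 - δ) * dH) ^ 2 := by nlinarith [sq_nonneg (δ * dH)]
          have h4 : 0 < Q v v ^ 2 := by positivity
          have h5 : dH ^ 2 * ((1 - 2 * δ) * Q v v ^ 2) ≤ dH ^ 2 * Q v w₀ ^ 2 := by
            rw [h1]
            nlinarith
          exact le_of_mul_le_mul_left h5 (by positivity)
        have hgr := hQ.growth hc (by omega) hδ hbig.le hw₀B.1.symm hpar
        have hsub : {w | w ∈ B ∧ G.dist v w = a} ⊆ {w | (1 - 2 * δ) * Q v v ^ 2 ≤ Q v w ^ 2} := by
          rintro w ⟨-, hw⟩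
          have h1 : c v w = c v w₀ := hmet _ _ _ _ (hw.trans hw₀a.symm)
          change (1 - 2 * δ) * Q v v ^ 2 ≤ Q v w ^ 2
          rw [hQ.mem _ _ _ _ h1]
          exact hpar
        have h1 : (({w | w ∈ B ∧ G.dist v w = a}.ncard : ℕ) : ℝ) ≤
            ({w | (1 - 2 * δ) * Q v v ^ 2 ≤ Q v w ^ 2}.ncard : ℝ) := by
          exact_mod_cast Set.ncard_le_ncard hsub (Set.toFinite _)
        have h2 := hG.dist_le hc hk hQ v z
        have h3 : ∑ w, Q w w = (Fintype.card V : ℝ) * Q v v := by
          rw [Finset.sum_congr rfl (fun u _ => hQ.diag hc u v), Finset.sum_const,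
            Finset.card_univ, nsmul_eq_mul]
        rw [h3, ← hz] at h2
        set N : ℝ := (({w | w ∈ B ∧ G.dist v w = a}.ncard : ℕ) : ℝ) with hN
        have hN0 : 0 ≤ N := Nat.cast_nonneg _
        have h4 : N * Q v v ≤ 24 * r :=
          (mul_le_mul_of_nonneg_right h1 hpos.le).trans hgr
        calc N * (D : ℝ) ≤ N * (3 * ((Fintype.card V : ℝ) * Q v v)) :=
              mul_le_mul_of_nonneg_left h2 hN0
          _ = 3 * (Fintype.card V : ℝ) * (N * Q v v) := by ring
          _ ≤ 3 * (Fintype.card V : ℝ) * (24 * r) :=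
              mul_le_mul_of_nonneg_left h4 (by positivity)
          _ = 72 * r * (Fintype.card V : ℝ) := by ring
    -- sum over the layers
    have hcover : B.ncard ≤ ∑ a ∈ Finset.Icc 1 D, {w | w ∈ B ∧ G.dist v w = a}.ncard := by
      have h1 : ∀ a : ℕ, {w | w ∈ B ∧ G.dist v w = a}.ncard =
          (Finset.univ.filter (fun w => w ∈ B ∧ G.dist v w = a)).card := by
        intro a
        rw [Set.ncard_eq_toFinset_card']
        congr 1
        ext w; simp
      have h2 : B.ncard = (Finset.univ.filter (fun w => w ∈ B)).card := by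
        rw [Set.ncard_eq_toFinset_card']
        congr 1
        ext w; simp
      rw [h2, Finset.sum_congr rfl (fun a _ => h1 a)]
      refine le_trans (Finset.card_le_card ?_) Finset.card_biUnion_le
      intro w hw
      have hwB : w ∈ B := (Finset.mem_filter.1 hw).2
      rw [Finset.mem_biUnion]
      refine ⟨G.dist v w, ?_, ?_⟩
      · rw [Finset.mem_Icc]
        have h3 : w ≠ v := hwB.1
        exact ⟨hG.conn.pos_dist_of_ne h3.symm, hDle w⟩
      · rw [Finset.mem_filter]
        exact ⟨Finset.mem_univ _, hwB, rfl⟩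
    have h1 : (B.ncard : ℝ) * (D : ℝ) ≤ (D : ℝ) * (72 * r * (Fintype.card V : ℝ)) := by
      have h2 : (B.ncard : ℝ) ≤
          ∑ a ∈ Finset.Icc 1 D, (({w | w ∈ B ∧ G.dist v w = a}.ncard : ℕ) : ℝ) := by
        exact_mod_cast hcover
      calc (B.ncard : ℝ) * (D : ℝ) ≤
            (∑ a ∈ Finset.Icc 1 D, (({w | w ∈ B ∧ G.dist v w = a}.ncard : ℕ) : ℝ)) * (D : ℝ) :=
              mul_le_mul_of_nonneg_right h2 hDR.le
        _ = ∑ a ∈ Finset.Icc 1 D,
              (({w | w ∈ B ∧ G.dist v w = a}.ncard : ℕ) : ℝ) * (D : ℝ) := Finset.sum_mul _ _ _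
        _ ≤ ∑ _a ∈ Finset.Icc 1 D, 72 * r * (Fintype.card V : ℝ) :=
              Finset.sum_le_sum (fun a _ => hlayer a)
        _ = (D : ℝ) * (72 * r * (Fintype.card V : ℝ)) := by
              rw [Finset.sum_const, Nat.card_Icc, nsmul_eq_mul]
              norm_num
    rw [mul_comm] at h1
    exact le_of_mul_le_mul_left h1 hDR
  refine ⟨main, ?_⟩
  intro v
  by_contra hcon
  push Not at hcon
  have h1 := main (1 / 20736) (by norm_num) v
  have hsq : Real.sqrt (1 / 20736) = 1 / 144 := by
    rw [show (1 / 20736 : ℝ) = (1 / 144) ^ 2 by norm_num]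
    exact Real.sqrt_sq (by norm_num)
  rw [hsq] at h1
  have h2 : {w | w ≠ v ∧ (deg (constituent c (c v w)) v : ℝ) - xi (constituent c (c v w))
      < (1 / 20736) * (deg (constituent c (c v w)) v : ℝ)} = {v}ᶜ := by
    ext w
    simp only [Set.mem_ofPred_eq, Set.mem_compl_iff, Set.mem_singleton_iff]
    exact ⟨fun h => h.1, fun h => ⟨h, hcon w h⟩⟩
  rw [h2] at h1
  have h3 : ({v}ᶜ : Set V).ncard + 1 = Fintype.card V := by
    have h4 := Set.ncard_add_ncard_compl ({v} : Set V)
    rw [Set.ncard_singleton, Nat.card_eq_fintype_card] at h4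
    omega
  have h4 : (({v}ᶜ : Set V).ncard : ℝ) + 1 = Fintype.card V := by exact_mod_cast h3
  have h5 : (4 : ℝ) ≤ Fintype.card V := by exact_mod_cast hn
  linarith

end Pool.Agent.Results.MP_7beb49_co.MetricConfigurations
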