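import Pool.Agent.Lib.MP_7beb49_co.MainPow

/-!
# Spectral gaps of constituents of primitive coherent configurations with small `D_min`

Part (a): for every primitive coherent configuration on `n` vertices, all `0 < α < 1`, `μ > 0` with
`10^5 D_min ≤ μ n`, all but at most `μ n` vertices `w ≠ v` are such that the colour `i` of `(v, w)`
is fast (`ξ ≤ α d`) or satisfies
`k_i m_i ≤ 10^5 α^(-3) n exp (-μ α² (1 - log (1 - α)) n / (10^6 D_min))`,
where `k_i` is the valency and `m_i` is the number of eigenvalues of absolute value larger than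
`α d`, with multiplicity. Part (b) counts the colours with these `m_i`, part (c) takes
`1 - α = (1 + S)^(- 10^7 D_min / n) / 100`, where `S < rank` is the sum over the colours of the
inverse multiplicity of `ξ`.

Proof. Run the lazy random walk `y_t` on the constituent of minimal `D`. Let `H` be the sum of the
spectral projections of a slow constituent of level `α`, with the signs of the eigenvalues. Then
`M_t = (H P^(T-t)) (x, y_t) / H² (x, x)` is a martingale which moves only if the colour of
`(x, y_t)` changes, which has probability `O(D_min / n)` on average, and the size of a jump is at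
most `2 √(a_t (1 - M + δ))`, `δ = 1 - α`, where `∑ a_t ≤ 4`. The potential
`(1 - M + δ)^(-β)` bounds the number of vertices where the reversed martingale starts at `1 - δ`.
-/

set_option autoImplicit false

namespace Pool.Agent.Results.MP_7beb49_co.MultiscaleGap

open Pool.Agent.Lib.MP_7beb49_co

/-- The colours of the pairs of distinct vertices. -/
def edgeColours {V κ : Type} (c : V → V → κ) : Set κ := {i | ∃ a b, a ≠ b ∧ c a b = i}

/-- The rank (number of colours). -/
noncomputable def rank {V κ : Type} (c : V → V → κ) : ℕ :=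
  (Set.range fun p : V × V => c p.1 p.2).ncard

/-- The valency of the colour of `(v, w)`. -/
noncomputable def valency {V κ : Type} (c : V → V → κ) (v w : V) : ℕ :=
  {z | c v z = c v w}.ncard

/-- The sum over the edge colours of the inverse of the number of eigenvalues, counted with
multiplicity, of absolute value larger than `α` times the degree (`0` if there are none). -/
noncomputable def slowSum {V κ : Type} [Fintype V] (c : V → V → κ) (v : V) (α : ℝ) : ℝ :=
  ∑ᶠ i ∈ edgeColours c, ((eigCount (constituent c i) (α * deg (constituent c i) v) : ℝ))⁻¹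

open Classical in
/-- The multiplicity of `ξ` (of the eigenvalues `θ` with `|θ| = ξ` together). -/
noncomputable def multXi {V : Type} [Fintype V] (X : SimpleGraph V) : ℕ :=
  Module.finrank ℝ (Submodule.span ℝ {f : V → ℝ | ∑ v, f v = 0 ∧
    ∃ θ : ℝ, |θ| = xi X ∧ (X.adjMatrix ℝ).mulVec f = θ • f})

/-- The sum over the edge colours of the inverse multiplicities of `ξ`. -/
noncomputable def multSum {V κ : Type} [Fintype V] (c : V → V → κ) : ℝ :=
  ∑ᶠ i ∈ edgeColours c, ((multXi (constituent c i) : ℝ))⁻¹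

section basics

variable {V κ : Type} [Fintype V]

theorem edgeColours_finite (c : V → V → κ) : (edgeColours c).Finite := by
  refine (Set.finite_range fun p : V × V => c p.1 p.2).subset ?_
  rintro i ⟨a, b, _, rfl⟩
  exact ⟨(a, b), rfl⟩

theorem slowSum_eq (c : V → V → κ) (v : V) (α : ℝ) :
    slowSum c v α = ∑ i ∈ (edgeColours_finite c).toFinset,
      ((eigCount (constituent c i) (α * deg (constituent c i) v) : ℝ))⁻¹ :=
  finsum_mem_eq_finite_toFinset_sum _ _

theorem multSum_eq (c : V → V → κ) :
    multSum c = ∑ i ∈ (edgeColours_finite c).toFinset, ((multXi (constituent c i) : ℝ))⁻¹ :=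
  finsum_mem_eq_finite_toFinset_sum _ _

theorem slowSum_nonneg (c : V → V → κ) (v : V) (α : ℝ) : 0 ≤ slowSum c v α := by
  rw [slowSum_eq]
  exact Finset.sum_nonneg fun _ _ => by positivity

theorem multSum_nonneg (c : V → V → κ) : 0 ≤ multSum c := by
  rw [multSum_eq]
  exact Finset.sum_nonneg fun _ _ => by positivity

open Classical in
theorem xiSet_finite (X : SimpleGraph V) :
    {t | ∃ (θ : ℝ) (f : V → ℝ), f ≠ 0 ∧ ∑ v, f v = 0 ∧
      (X.adjMatrix ℝ).mulVec f = θ • f ∧ t = |θ|}.Finite := by
  have h := Module.End.finite_hasEigenvalue (Matrix.toLin' (X.adjMatrix ℝ))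
  refine (h.image (fun θ => |θ|)).subset ?_
  rintro t ⟨θ, f, hf, _, hev, rfl⟩
  refine ⟨θ, Module.End.hasEigenvalue_of_hasEigenvector (x := f)
    ⟨Module.End.mem_eigenspace_iff.2 ?_, hf⟩, rfl⟩
  rw [Matrix.toLin'_apply]
  exact hev

/-- Fast constituents have no eigenvalue above the level. -/
theorem eigCount_eq_zero (X : SimpleGraph V) {t : ℝ} (h : xi X ≤ t) : eigCount X t = 0 := by
  classical
  rw [eigCount, Submodule.finrank_eq_zero, Submodule.span_eq_bot]
  rintro f ⟨hf0, θ, ht, hev⟩
  by_contra hf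
  have h1 : |θ| ≤ xi X := le_csSup (xiSet_finite X).bddAbove ⟨θ, f, hf, hf0, hev, rfl⟩
  linarith

theorem multXi_pos (X : SimpleGraph V) (h : 0 < xi X) : 0 < multXi X := by
  classical
  have hne : {t | ∃ (θ : ℝ) (f : V → ℝ), f ≠ 0 ∧ ∑ v, f v = 0 ∧
      (X.adjMatrix ℝ).mulVec f = θ • f ∧ t = |θ|}.Nonempty := by
    by_contra h1
    rw [Set.not_nonempty_iff_eq_empty] at h1
    have h2 : xi X = 0 := by
      rw [xi, h1, Real.sSup_empty]
    linarith
  obtain ⟨θ, f, hf, hf0, hev, ht⟩ := hne.csSup_mem (xiSet_finite X)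
  rw [multXi, Module.finrank_pos_iff_exists_ne_zero]
  refine ⟨⟨f, Submodule.subset_span ⟨hf0, θ, ht.symm, hev⟩⟩, fun h0 => hf ?_⟩
  exact congrArg Subtype.val h0

theorem multXi_le (X : SimpleGraph V) {t : ℝ} (h : t < xi X) : multXi X ≤ eigCount X t := by
  classical
  rw [multXi, eigCount]
  refine Submodule.finrank_mono (Submodule.span_mono ?_)
  rintro f ⟨hf0, θ, ht, hev⟩
  exact ⟨hf0, θ, by rw [ht]; exact h, hev⟩

theorem slowSum_le (c : V → V → κ) (v : V) {α : ℝ} (hα : 0 ≤ α) : slowSum c v α ≤ multSum c := by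
  rw [slowSum_eq, multSum_eq]
  refine Finset.sum_le_sum fun i _ => ?_
  by_cases h : α * deg (constituent c i) v < xi (constituent c i)
  · have h1 : 0 < xi (constituent c i) := lt_of_le_of_lt (by positivity) h
    have h2 := multXi_pos _ h1
    exact inv_anti₀ (by exact_mod_cast h2) (by exact_mod_cast multXi_le _ h)
  · rw [eigCount_eq_zero _ (not_lt.1 h)]
    simp

theorem multSum_lt (c : V → V → κ) (hc : IsPCC c) (v : V) : multSum c < rank c := by
  rw [multSum_eq]
  have h1 : ∑ i ∈ (edgeColours_finite c).toFinset, ((multXi (constituent c i) : ℝ))⁻¹ ≤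
      ∑ i ∈ (edgeColours_finite c).toFinset, (1 : ℝ) :=
    Finset.sum_le_sum fun i _ => Nat.cast_inv_le_one _
  rw [Finset.sum_const, nsmul_eq_mul, mul_one] at h1
  refine lt_of_le_of_lt h1 ?_
  have h2 : (edgeColours_finite c).toFinset.card < rank c := by
    rw [rank, ← Set.ncard_coe_finset, Set.Finite.coe_toFinset]
    refine Set.ncard_lt_ncard ?_ (Set.finite_range _)
    rw [Set.ssubset_iff_subset_ne]
    refine ⟨?_, fun h => ?_⟩
    · rintro i ⟨a, b, _, rfl⟩
      exact ⟨(a, b), rfl⟩
    · have h3 : c v v ∈ edgeColours c := by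
        rw [h]
        exact ⟨(v, v), rfl⟩
      obtain ⟨a, b, hab, h4⟩ := h3
      exact hc.diag_ne v a b hab h4.symm
  exact_mod_cast h2

open Classical in
/-- Slow colours with small product of valency and number of slow eigenvalues cover few
vertices. -/
theorem count (c : V → V → κ) (v : V) {α s : ℝ} (hα : 0 < α) (hs : 0 ≤ s) :
    ({w | w ≠ v ∧ α * deg (constituent c (c v w)) v < xi (constituent c (c v w)) ∧
      (valency c v w : ℝ) * eigCount (constituent c (c v w))
        (α * deg (constituent c (c v w)) v) ≤ s}.ncard : ℝ) ≤ s * slowSum c v α := by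
  set A : Finset V := Finset.univ.filter (fun w => w ≠ v ∧
    α * deg (constituent c (c v w)) v < xi (constituent c (c v w)) ∧
      (valency c v w : ℝ) * eigCount (constituent c (c v w))
        (α * deg (constituent c (c v w)) v) ≤ s) with hA
  have h1 : {w | w ≠ v ∧ α * deg (constituent c (c v w)) v < xi (constituent c (c v w)) ∧
      (valency c v w : ℝ) * eigCount (constituent c (c v w))
        (α * deg (constituent c (c v w)) v) ≤ s}.ncard = A.card := by
    rw [Set.ncard_eq_toFinset_card']
    congr 1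
    ext w; simp [hA]
  have h2 : A.card = ∑ i ∈ A.image (fun w => c v w), (A.filter (fun w => c v w = i)).card :=
    Finset.card_eq_sum_card_image _ _
  have h3 : ∀ i ∈ A.image (fun w => c v w), ((A.filter (fun w => c v w = i)).card : ℝ) ≤
      s * ((eigCount (constituent c i) (α * deg (constituent c i) v) : ℝ))⁻¹ := by
    intro i hi
    obtain ⟨w, hw, rfl⟩ := Finset.mem_image.1 hi
    obtain ⟨hw0, hw1, hw2⟩ := (Finset.mem_filter.1 hw).2
    have h4 : (0 : ℝ) < eigCount (constituent c (c v w)) (α * deg (constituent c (c v w)) v) := by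
      exact_mod_cast CardPow.eigCount_pos _ (by positivity) hw1
    rw [← div_eq_mul_inv, le_div_iff₀ h4]
    refine le_trans ?_ hw2
    refine mul_le_mul_of_nonneg_right ?_ h4.le
    have : (A.filter (fun z => c v z = c v w)).card ≤ valency c v w := by
      rw [valency, Set.ncard_eq_toFinset_card']
      refine Finset.card_le_card fun z hz => ?_
      have := (Finset.mem_filter.1 hz).2
      simpa using this
    exact_mod_cast this
  have h5 : A.image (fun w => c v w) ⊆ (edgeColours_finite c).toFinset := by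
    intro i hi
    obtain ⟨w, hw, rfl⟩ := Finset.mem_image.1 hi
    rw [Set.Finite.mem_toFinset]
    exact ⟨v, w, ((Finset.mem_filter.1 hw).2.1).symm, rfl⟩
  rw [h1, h2]
  push_cast
  refine (Finset.sum_le_sum h3).trans ?_
  rw [← Finset.mul_sum, slowSum_eq]
  refine mul_le_mul_of_nonneg_left ?_ hs
  exact Finset.sum_le_sum_of_subset_of_nonneg h5 fun _ _ _ => by positivity

end basics

theorem result : ∀ (V κ : Type) [Fintype V] (c : V → V → κ), IsPCC c → ∀ v : V,
    (∀ α μ : ℝ, 0 < α → α < 1 → 0 < μ → 10 ^ 5 * (Dmin c : ℝ) ≤ μ * Fintype.card V →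
      ({w | w ≠ v ∧ α * deg (constituent c (c v w)) v < xi (constituent c (c v w)) ∧
        10 ^ 5 / α ^ 3 * Fintype.card V * Real.exp (-(μ * α ^ 2 * (1 - Real.log (1 - α)) *
          Fintype.card V / (10 ^ 6 * Dmin c))) <
            (valency c v w : ℝ) * eigCount (constituent c (c v w))
              (α * deg (constituent c (c v w)) v)}.ncard : ℝ) ≤ μ * Fintype.card V) ∧
    (∀ α : ℝ, 0 < α → α < 1 → 4 * 10 ^ 5 * (Dmin c : ℝ) ≤ Fintype.card V →
      4 * 10 ^ 5 * slowSum c v α * Real.exp (-(α ^ 2 * (1 - Real.log (1 - α)) *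
        Fintype.card V / (4 * 10 ^ 6 * Dmin c))) ≤ α ^ 3 →
      (Fintype.card V : ℝ) / 2 - 1 ≤ ({w | w ≠ v ∧ (1 - α) * deg (constituent c (c v w)) v ≤
        deg (constituent c (c v w)) v - xi (constituent c (c v w))}.ncard : ℝ)) ∧
    multSum c < rank c ∧
    (10 ^ 7 * (Dmin c : ℝ) ≤ Fintype.card V →
      (Fintype.card V : ℝ) / 2 - 1 ≤ ({w | w ≠ v ∧
        (1 + multSum c) ^ (-(10 ^ 7 * Dmin c / Fintype.card V : ℝ)) / 100 *
            deg (constituent c (c v w)) v ≤
          deg (constituent c (c v w)) v - xi (constituent c (c v w))}.ncard : ℝ)) := by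
  classical
  intro V κ _ c hc v
  set n : ℝ := (Fintype.card V : ℝ) with hn
  have hn0 : 0 < n := by
    have : 0 < Fintype.card V := Fintype.card_pos_iff.2 ⟨v⟩
    rw [hn]; exact_mod_cast this
  -- part (a)
  have partA : ∀ α μ : ℝ, 0 < α → α < 1 → 0 < μ → 10 ^ 5 * (Dmin c : ℝ) ≤ μ * n →
      ({w | w ≠ v ∧ α * deg (constituent c (c v w)) v < xi (constituent c (c v w)) ∧
        10 ^ 5 / α ^ 3 * n * Real.exp (-(μ * α ^ 2 * (1 - Real.log (1 - α)) *
          n / (10 ^ 6 * Dmin c))) <
            (valency c v w : ℝ) * eigCount (constituent c (c v w))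
              (α * deg (constituent c (c v w)) v)}.ncard : ℝ) ≤ μ * n := by
    intro α μ hα hα1 hμ hD
    have h := CardPow.main_pow hc v hα hα1 hμ hD
    have e : 10 ^ 5 / α ^ 3 * n * Real.exp (-(μ * α ^ 2 * (1 - Real.log (1 - α)) *
          n / (10 ^ 6 * Dmin c))) = n * (10 ^ 5 / α ^ 3 *
            Real.exp (-(μ * α ^ 2 * (1 - Real.log (1 - α)) * n / (10 ^ 6 * Dmin c)))) := by
      ring
    rw [e]
    exact h
  -- part (b)
  have partB : ∀ α : ℝ, 0 < α → α < 1 → 4 * 10 ^ 5 * (Dmin c : ℝ) ≤ n →
      4 * 10 ^ 5 * slowSum c v α * Real.exp (-(α ^ 2 * (1 - Real.log (1 - α)) *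
        n / (4 * 10 ^ 6 * Dmin c))) ≤ α ^ 3 →
      n / 2 - 1 ≤ ({w | w ≠ v ∧ (1 - α) * deg (constituent c (c v w)) v ≤
        deg (constituent c (c v w)) v - xi (constituent c (c v w))}.ncard : ℝ) := by
    intro α hα hα1 hD hS
    have hA := partA α (1 / 4) hα hα1 (by norm_num) (by linarith)
    have e1 : 1 / 4 * α ^ 2 * (1 - Real.log (1 - α)) * n / (10 ^ 6 * (Dmin c : ℝ)) =
        α ^ 2 * (1 - Real.log (1 - α)) * n / (4 * 10 ^ 6 * Dmin c) := by
      by_cases h0 : (Dmin c : ℝ) = 0
      · rw [h0]; simp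
      · field_simp
    rw [e1] at hA
    set E : ℝ := Real.exp (-(α ^ 2 * (1 - Real.log (1 - α)) * n / (4 * 10 ^ 6 * Dmin c))) with hE
    set s : ℝ := 10 ^ 5 / α ^ 3 * n * E with hs
    have hs0 : 0 ≤ s := by positivity
    have hC := count c v hα hs0
    have hsS : s * slowSum c v α ≤ n / 4 := by
      have : s * slowSum c v α = n / (4 * α ^ 3) * (4 * 10 ^ 5 * slowSum c v α * E) := by
        rw [hs]; field_simp
      rw [this]
      calc n / (4 * α ^ 3) * (4 * 10 ^ 5 * slowSum c v α * E) ≤ n / (4 * α ^ 3) * α ^ 3 :=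
            mul_le_mul_of_nonneg_left hS (by positivity)
        _ = n / 4 := by field_simp
    set G : Set V := {w | w ≠ v ∧ (1 - α) * deg (constituent c (c v w)) v ≤
        deg (constituent c (c v w)) v - xi (constituent c (c v w))} with hG
    set B1 : Set V := {w | w ≠ v ∧ α * deg (constituent c (c v w)) v <
        xi (constituent c (c v w)) ∧ s < (valency c v w : ℝ) * eigCount (constituent c (c v w))
              (α * deg (constituent c (c v w)) v)} with hB1
    set B2 : Set V := {w | w ≠ v ∧ α * deg (constituent c (c v w)) v <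
        xi (constituent c (c v w)) ∧ (valency c v w : ℝ) * eigCount (constituent c (c v w))
              (α * deg (constituent c (c v w)) v) ≤ s} with hB2
    have hsub : ({w | w ≠ v} : Set V) ⊆ (G ∪ B1) ∪ B2 := by
      intro w hw
      by_cases h4 : α * deg (constituent c (c v w)) v < xi (constituent c (c v w))
      · by_cases h5 : s < (valency c v w : ℝ) * eigCount (constituent c (c v w))
              (α * deg (constituent c (c v w)) v)
        · exact Or.inl (Or.inr ⟨hw, h4, h5⟩)
        · exact Or.inr ⟨hw, h4, not_lt.1 h5⟩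
      · refine Or.inl (Or.inl ⟨hw, ?_⟩)
        have := not_lt.1 h4
        linarith
    have h3 := Set.ncard_le_ncard hsub (Set.toFinite _)
    have h4 : ({w | w ≠ v} : Set V).ncard = Fintype.card V - 1 := by
      have : ({w | w ≠ v} : Set V) = {v}ᶜ := rfl
      rw [this, Set.ncard_compl, Set.ncard_singleton, Nat.card_eq_fintype_card]
    have h5 := Set.ncard_union_le (G ∪ B1) B2
    have h6 := Set.ncard_union_le G B1
    have h8 : Fintype.card V ≤ G.ncard + B1.ncard + B2.ncard + 1 := by
      rw [h4] at h3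
      omega
    have h9 : n ≤ (G.ncard : ℝ) + B1.ncard + B2.ncard + 1 := by
      rw [hn]; exact_mod_cast h8
    linarith
  refine ⟨partA, partB, multSum_lt c hc v, fun hD => ?_⟩
  -- part (c)
  by_cases hex : ∃ w, w ≠ v
  swap
  · push Not at hex
    have h1 : Fintype.card V = 1 := Fintype.card_eq_one_iff.2 ⟨v, hex⟩
    have h2 : n = 1 := by rw [hn, h1]; norm_num
    rw [h2]
    refine le_trans (by norm_num) (Nat.cast_nonneg _)
  obtain ⟨w₀, hw₀⟩ := hex
  have hne : {d | ∃ a b, a ≠ b ∧ d = distinguishing c a b}.Nonempty := ⟨_, w₀, v, hw₀, rfl⟩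
  obtain ⟨a, b, hab, hDab⟩ := Nat.sInf_mem hne
  have hD0 : (0 : ℝ) < Dmin c := by
    have h1 : Dmin c = distinguishing c a b := hDab
    have : 0 < distinguishing c a b := by
      rw [distinguishing, Set.ncard_pos (Set.toFinite _)]
      exact ⟨a, hc.diag_ne a a b hab⟩
    rw [h1]; exact_mod_cast this
  set S : ℝ := multSum c with hS
  have hS0 : 0 ≤ S := multSum_nonneg c
  set D : ℝ := (Dmin c : ℝ) with hDdef
  set δ : ℝ := (1 + S) ^ (-(10 ^ 7 * D / n)) / 100 with hδ
  have hδ0 : 0 < δ := by positivity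
  have hδ1 : δ ≤ 1 / 100 := by
    have : (1 + S) ^ (-(10 ^ 7 * D / n)) ≤ 1 :=
      Real.rpow_le_one_of_one_le_of_nonpos (by linarith) (by
        have : 0 ≤ 10 ^ 7 * D / n := by positivity
        linarith)
    rw [hδ]; linarith
  have key := partB (1 - δ) (by linarith) (by linarith) (by linarith) (by
    have hlog : -Real.log δ = Real.log 100 + 10 ^ 7 * D / n * Real.log (1 + S) := by
      rw [hδ, Real.log_div (by positivity) (by norm_num), Real.log_rpow (by positivity)]
      ring
    have hsub1 : (1 : ℝ) - (1 - δ) = δ := by ring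
    rw [hsub1]
    have hα2 : (0.98 : ℝ) ≤ (1 - δ) ^ 2 := by nlinarith
    have hα3 : (0.97 : ℝ) ≤ (1 - δ) ^ 3 := by
      have h1 : (0.99 : ℝ) ^ 3 ≤ (1 - δ) ^ 3 :=
        pow_le_pow_left₀ (by norm_num) (by linarith) 3
      linarith
    have hl100 : (4.6 : ℝ) ≤ Real.log 100 := by
      have h1 : Real.log (2 ^ 93) ≤ Real.log (100 ^ 14) :=
        Real.log_le_log (by positivity) (by norm_num)
      rw [Real.log_pow, Real.log_pow] at h1
      have h2 := Real.log_two_gt_d9
      push_cast at h1
      linarith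
    have hL0 : 0 ≤ Real.log (1 + S) := Real.log_nonneg (by linarith)
    have hDn : 0 < D / n := by positivity
    -- lower bound for the exponent
    have hexp : 13 + Real.log (1 + S) ≤
        (1 - δ) ^ 2 * (1 - Real.log δ) * n / (4 * 10 ^ 6 * D) := by
      have e1 : (1 - δ) ^ 2 * (1 - Real.log δ) * n / (4 * 10 ^ 6 * D) =
          (1 - δ) ^ 2 * ((1 + Real.log 100) * (n / (4 * 10 ^ 6 * D)) +
            10 / 4 * Real.log (1 + S)) := by
        have : 1 - Real.log δ = 1 + Real.log 100 + 10 ^ 7 * D / n * Real.log (1 + S) := by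
          linarith
        rw [this]
        field_simp
      rw [e1]
      have e2 : (2.5 : ℝ) ≤ n / (4 * 10 ^ 6 * D) := by
        rw [le_div_iff₀ (by positivity)]
        linarith
      have e3 : (14 : ℝ) ≤ (1 + Real.log 100) * (n / (4 * 10 ^ 6 * D)) := by nlinarith
      nlinarith
    have h5 : 4 * 10 ^ 5 * slowSum c v (1 - δ) * Real.exp (-((1 - δ) ^ 2 * (1 - Real.log δ) * n /
        (4 * 10 ^ 6 * D))) ≤ 4 * 10 ^ 5 * (1 + S) * Real.exp (-(13 + Real.log (1 + S))) := by
      have h6 : slowSum c v (1 - δ) ≤ 1 + S := by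
        have := slowSum_le c v (α := 1 - δ) (by linarith)
        linarith
      have h7 := slowSum_nonneg c v (1 - δ)
      exact mul_le_mul (by linarith) (Real.exp_le_exp.2 (by linarith)) (Real.exp_pos _).le
        (by positivity)
    refine h5.trans ?_
    rw [neg_add, Real.exp_add, Real.exp_neg (Real.log (1 + S)), Real.exp_log (by positivity)]
    have h6 : 4 * 10 ^ 5 * (1 + S) * (Real.exp (-13) * (1 + S)⁻¹) =
        4 * 10 ^ 5 * Real.exp (-13) := by
      field_simp
    rw [h6]
    have h7 : 4.4 * 10 ^ 5 ≤ Real.exp 13 := by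
      have h1 : Real.exp 13 = Real.exp 1 ^ (13 : ℕ) := by
        rw [← Real.exp_nat_mul]; norm_num
      rw [h1]
      calc (4.4 * 10 ^ 5 : ℝ) ≤ 2.718 ^ 13 := by norm_num
        _ ≤ Real.exp 1 ^ 13 :=
          pow_le_pow_left₀ (by norm_num) (by linarith [Real.exp_one_gt_d9]) 13
    have h8 : Real.exp (-13) ≤ 1 / (4.4 * 10 ^ 5) := by
      rw [Real.exp_neg, ← one_div]
      exact one_div_le_one_div_of_le (by norm_num) h7
    linarith)
  have hsub2 : (1 : ℝ) - (1 - δ) = δ := by ring
  rw [hsub2] at key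
  exact key

end Pool.Agent.Results.MP_7beb49_co.MultiscaleGap
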