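import Pool.Agent.Lib.MP_7beb49_co.Multiplier
import Pool.Agent.Lib.MP_7beb49_co.UnitsAverage
import Pool.Agent.Lib.MP_7beb49_co.Twisted

/-!
# Spectral gaps for translation schemes and two-sided invariant configurations

Let a primitive coherent configuration be invariant under two transitive groups of
automorphisms commuting with each other (for instance one transitive abelian group: translation
schemes, i.e. Schur rings over abelian groups). Then the normalised second eigenvalue of the
constituents, averaged over all pairs `(v, w)`, is at most `(2 D_min - 2) / (n - 1)`.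
-/

set_option autoImplicit false

namespace Pool.Agent.Results.MP_7beb49_co.TranslationSchemes

open Finset Pool.Agent.Lib.MP_7beb49_co

variable {V κ : Type} [Fintype V] {c : V → V → κ}

/-- Adjacency in a constituent depends only on the colour. -/
theorem adj_iff (hc : IsPCC c) (i : κ) {u v u' v' : V} (h : c u v = c u' v') :
    (constituent c i).Adj u v ↔ (constituent c i).Adj u' v' := by
  have h' := hc.conv _ _ _ _ h
  rw [constituent, SimpleGraph.fromRel_adj, SimpleGraph.fromRel_adj, h, h']
  have : u ≠ v ↔ u' ≠ v' := by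
    constructor
    · rintro h1 rfl
      exact hc.diag_ne _ _ _ h1 h.symm
    · rintro h1 rfl
      exact hc.diag_ne _ _ _ h1 h
  rw [this]

open Classical in
/-- The number of vertices at which the neighbourhoods of two vertices differ. -/
noncomputable def diff (c : V → V → κ) (i : κ) (x y : V) : ℕ :=
  (univ.filter (fun z => ¬ ((constituent c i).Adj x z ↔ (constituent c i).Adj y z))).card

theorem diff_colour (hc : IsPCC c) (i : κ) {x y x' y' : V} (h : c x y = c x' y') :
    diff c i x y = diff c i x' y' := by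
  classical
  obtain ⟨σ, hσ⟩ := exists_equiv hc h
  rw [diff, diff]
  refine Finset.card_bij (fun z _ => σ z) ?_ ?_ ?_
  · intro z hz
    rw [Finset.mem_filter] at hz ⊢
    refine ⟨Finset.mem_univ _, ?_⟩
    rw [adj_iff hc i (hσ z).1]
    have h2 : (constituent c i).Adj y' (σ z) ↔ (constituent c i).Adj y z := by
      rw [SimpleGraph.adj_comm, adj_iff hc i (hσ z).2, SimpleGraph.adj_comm]
    rw [h2]
    exact hz.2
  · intro z _ z' _ h1
    exact σ.injective h1
  · intro z hz
    refine ⟨σ.symm z, ?_, by simp⟩
    rw [Finset.mem_filter] at hz ⊢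
    refine ⟨Finset.mem_univ _, ?_⟩
    have h3 := hσ (σ.symm z)
    rw [Equiv.apply_symm_apply] at h3
    rw [← adj_iff hc i h3.1]
    have h2 : (constituent c i).Adj y' z ↔ (constituent c i).Adj y (σ.symm z) := by
      rw [SimpleGraph.adj_comm, adj_iff hc i h3.2, SimpleGraph.adj_comm]
    rw [← h2]
    exact hz.2

variable {L R : Subgroup (Equiv.Perm V)}

/-- An eigenvalue of a constituent with a twisted eigenfunction. -/
theorem eigen_bound (h : TwoSided c L R) (hc : IsPCC c) (i : κ) {g : Equiv.Perm V} (hg : g ∈ R)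
    (o : V) {θ : ℝ} {ζ : ℂ} {F : V → ℂ} (hF : F ≠ 0)
    (hev : by classical exact ∀ x, ∑ y, (if (constituent c i).Adj x y then F y else 0) = (θ : ℂ) * F x)
    (hs : ∀ x, F (g x) = ζ * F x) :
    |θ| * ‖ζ - 1‖ ≤ diff c i o (g o) := by
  classical
  set H := constituent c i with hH
  -- pointwise inequality
  let t : V → V → ℝ := fun x y => if (H.Adj x y ↔ H.Adj (g x) y) then 0 else 1
  have hpt : ∀ x, |θ| * ‖ζ - 1‖ * ‖F x‖ ≤ ∑ y, t x y * ‖F y‖ := by
    intro x
    have h1 : (θ : ℂ) * ((ζ - 1) * F x) =
        ∑ y, ((if H.Adj (g x) y then F y else 0) - (if H.Adj x y then F y else 0)) := by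
      rw [Finset.sum_sub_distrib]
      have h2 := hev (g x)
      have h3 := hev x
      rw [hs x] at h2
      have h4 : (∑ y, if H.Adj (g x) y then F y else 0) = (θ : ℂ) * (ζ * F x) := by
        rw [← h2]
      have h5 : (∑ y, if H.Adj x y then F y else 0) = (θ : ℂ) * F x := by
        rw [← h3]
      rw [h4, h5]; ring
    have h6 : |θ| * ‖ζ - 1‖ * ‖F x‖ = ‖(θ : ℂ) * ((ζ - 1) * F x)‖ := by
      rw [norm_mul, norm_mul, Complex.norm_real, Real.norm_eq_abs]; ring
    rw [h6, h1]
    refine le_trans (norm_sum_le _ _) (Finset.sum_le_sum ?_)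
    intro y _
    by_cases ha : H.Adj x y
    · by_cases hb : H.Adj (g x) y
      · simp only [t, ha, hb]; simp
      · simp only [t, ha, hb]; simp
    · by_cases hb : H.Adj (g x) y
      · simp only [t, ha, hb]; simp
      · simp only [t, ha, hb]; simp
  -- column sums
  have hcol : ∀ y, ∑ x, t x y = diff c i o (g o) := by
    intro y
    have h1 : diff c i (g⁻¹ y) y = diff c i o (g o) := by
      apply diff_colour hc
      have h2 := h.unif hg (g⁻¹ y) o
      rw [← h2]
      congr 1
      simp
    rw [← h1, diff, Finset.card_filter]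
    push_cast
    apply Finset.sum_congr rfl
    intro x _
    have h3 : H.Adj (g x) y ↔ H.Adj (g⁻¹ y) x := by
      rw [SimpleGraph.adj_comm, hH]
      apply adj_iff hc
      have h4 := h.autR g hg (g⁻¹ y) x
      rw [← h4]
      congr 1
      simp
    have h5 : H.Adj x y ↔ H.Adj y x := SimpleGraph.adj_comm _ _ _
    simp only [t]
    rw [h3, h5]
    by_cases h6 : H.Adj y x
    · simp [h6, ← hH]
    · simp [h6, ← hH]
  have hsum : |θ| * ‖ζ - 1‖ * ∑ x, ‖F x‖ ≤ (diff c i o (g o) : ℝ) * ∑ y, ‖F y‖ := by
    rw [Finset.mul_sum]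
    refine le_trans (Finset.sum_le_sum (fun x _ => hpt x)) ?_
    rw [Finset.sum_comm, Finset.mul_sum]
    apply le_of_eq
    apply Finset.sum_congr rfl
    intro y _
    rw [← Finset.sum_mul, hcol y]
  have hpos : 0 < ∑ x, ‖F x‖ := by
    obtain ⟨x, hx⟩ : ∃ x, F x ≠ 0 := by
      by_contra hcon
      push Not at hcon
      exact hF (funext hcon)
    exact Finset.sum_pos' (fun x _ => norm_nonneg _) ⟨x, Finset.mem_univ _, norm_pos_iff.2 hx⟩
  exact le_of_mul_le_mul_right hsum hpos

/-- Powers by units: the colour of `s ^ u` depends only on the colour of `s`. -/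
theorem exists_prime_unit [Nonempty V] (u : (ZMod (Fintype.card V))ˣ) :
    ∃ p : ℕ, p.Prime ∧ Fintype.card V < p ∧ (p : ZMod (Fintype.card V)) = (u : ZMod _) := by
  have : NeZero (Fintype.card V) := ⟨Fintype.card_ne_zero⟩
  obtain ⟨p, hp, hpp, heq⟩ := Nat.forall_exists_prime_gt_and_eq_mod u.isUnit (Fintype.card V)
  exact ⟨p, hpp, hp, heq⟩

theorem pow_val_eq (h : TwoSided c L R) [Nonempty V] {b : Equiv.Perm V} (hb : b ∈ R)
    {u : (ZMod (Fintype.card V))ˣ} {p : ℕ}
    (hp : (p : ZMod (Fintype.card V)) = (u : ZMod (Fintype.card V))) :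
    b ^ ((u : ZMod (Fintype.card V)).val) = b ^ p := by
  have : NeZero (Fintype.card V) := ⟨Fintype.card_ne_zero⟩
  rw [← hp, ZMod.val_natCast, pow_mod_card_eq h hb]
where
  pow_mod_card_eq (h : TwoSided c L R) {b : Equiv.Perm V} (hb : b ∈ R) :
      b ^ (p % Fintype.card V) = b ^ p := by
    conv_rhs => rw [← Nat.div_add_mod p (Fintype.card V), pow_add, pow_mul, h.pow_card hb,
      one_pow, one_mul]

/-- The bound for one constituent. -/
theorem xi_le [NeZero (Fintype.card V)] (h : TwoSided c L R) (hc : IsPCC c) {g : Equiv.Perm V} (hg : g ∈ R) (o : V)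
    (hgo : g o ≠ o) (i : κ) :
    xi (constituent c i) * (Fintype.card (ZMod (Fintype.card V))ˣ : ℝ) ≤
      ∑ u : (ZMod (Fintype.card V))ˣ,
        (diff c i o ((g ^ ((u : ZMod (Fintype.card V)).val)) o) : ℝ) := by
  classical
  have hne : Nonempty V := ⟨o⟩
  set n := Fintype.card V with hn
  set H := constituent c i with hH
  have hφ : (0 : ℝ) < (Fintype.card (ZMod n)ˣ : ℝ) := by
    exact_mod_cast Fintype.card_pos
  rw [← le_div_iff₀ (by positivity)]
  apply Real.sSup_le
  swap
  · positivity
  rintro t ⟨θ, f, hf, hf0, hev, rfl⟩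
  rw [le_div_iff₀ (by positivity)]
  -- some element of the colour of `g` moves `f`
  have hmove : ∃ s ∈ R, c o (s o) = c o (g o) ∧ ∃ x, f (s x) ≠ f x := by
    by_contra hcon
    push Not at hcon
    apply hf
    have hconn := hc.primitive o (g o) (Ne.symm hgo)
    have hadj : ∀ x y, (constituent c (c o (g o))).Adj x y → f x = f y := by
      intro x y hxy
      rw [constituent, SimpleGraph.fromRel_adj] at hxy
      rcases hxy.2 with h1 | h1
      · obtain ⟨s, hs, rfl⟩ := h.transR x y
        rw [h.unif hs x o] at h1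
        exact (hcon s hs h1 x).symm
      · obtain ⟨s, hs, rfl⟩ := h.transR y x
        rw [h.unif hs y o] at h1
        exact hcon s hs h1 y
    have hwalk : ∀ x y, (constituent c (c o (g o))).Walk x y → f x = f y := by
      intro x y w
      induction w with
      | nil => rfl
      | cons hab _ ih => rw [hadj _ _ hab]; exact ih
    have hconst : ∀ x, f x = f o := by
      intro x
      obtain ⟨w⟩ := hconn.preconnected x o
      exact hwalk x o w
    have h2 : (n : ℝ) * f o = 0 := by
      rw [← hf0, Finset.sum_congr rfl (fun x _ => hconst x), Finset.sum_const, nsmul_eq_mul,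
        Finset.card_univ]
    have h3 : f o = 0 := by
      rcases mul_eq_zero.1 h2 with h4 | h4
      · exact absurd (by exact_mod_cast h4) (NeZero.ne n)
      · exact h4
    funext x
    rw [hconst x, h3]; rfl
  obtain ⟨s, hs, hcol, hmv⟩ := hmove
  have hsn : s ^ n = 1 := h.pow_card hs
  have hHs : ∀ x y, H.Adj (s x) (s y) ↔ H.Adj x y := by
    intro x y
    exact adj_iff hc i (h.autR s hs x y)
  have hf' : ∀ x, ∑ y, (if H.Adj x y then f y else 0) = θ * f x := by
    intro x
    have h1 := congrFun hev x
    rw [Matrix.mulVec, dotProduct] at h1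
    rw [Pi.smul_apply, smul_eq_mul] at h1
    rw [← h1]
    apply Finset.sum_congr rfl
    intro y _
    rw [SimpleGraph.adjMatrix_apply]
    by_cases h2 : H.Adj x y
    · rw [if_pos h2, if_pos (by exact h2), one_mul]
    · rw [if_neg h2, if_neg (by exact h2), zero_mul]
  obtain ⟨ζ, F, hζn, hζ1, hF, hFev, hFs⟩ :=
    exists_twisted H s (Nat.pos_of_ne_zero (NeZero.ne n)) hsn hHs θ f hf' hmv
  have hFsk : ∀ k x, F ((s ^ k) x) = ζ ^ k * F x := by
    intro k
    induction k with
    | zero => intro x; simp
    | succ k ih =>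
      intro x
      have h1 : (s ^ (k + 1)) x = (s ^ k) (s x) := by rw [pow_succ]; rfl
      rw [h1, ih, hFs]; ring
  -- the bound for each unit
  have hu : ∀ u : (ZMod n)ˣ, |θ| * ‖ζ ^ ((u : ZMod n).val) - 1‖ ≤
      (diff c i o ((g ^ ((u : ZMod n).val)) o) : ℝ) := by
    intro u
    have h1 := eigen_bound h hc i (R.pow_mem hs ((u : ZMod n).val)) o hF
      (by convert hFev) (hFsk _)
    refine le_trans h1 (le_of_eq ?_)
    obtain ⟨p, hpp, hpn, hpu⟩ := exists_prime_unit (V := V) u
    rw [pow_val_eq h hs hpu, pow_val_eq h hg hpu]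
    congr 1
    apply diff_colour hc
    have hpd : ¬ p ∣ Fintype.card V := fun hd =>
      absurd (Nat.le_of_dvd Fintype.card_pos hd) (by omega)
    exact (h.colour_pow hc hpp hpd hs hg o).2 hcol
  -- average over the units
  have h7 : (Fintype.card (ZMod n)ˣ : ℝ) ≤ ∑ u : (ZMod n)ˣ, ‖ζ ^ ((u : ZMod n).val) - 1‖ :=
    card_le_sum_units hζn hζ1
  calc |θ| * (Fintype.card (ZMod n)ˣ : ℝ)
      ≤ |θ| * ∑ u : (ZMod n)ˣ, ‖ζ ^ ((u : ZMod n).val) - 1‖ :=
        mul_le_mul_of_nonneg_left h7 (abs_nonneg _)
    _ = ∑ u : (ZMod n)ˣ, |θ| * ‖ζ ^ ((u : ZMod n).val) - 1‖ := by rw [Finset.mul_sum]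
    _ ≤ _ := Finset.sum_le_sum (fun u _ => hu u)

open Classical in
theorem deg_eq (H : SimpleGraph V) (v : V) : deg H v = (univ.filter (fun z => H.Adj v z)).card := by
  rw [deg, Set.ncard_eq_toFinset_card']
  congr 1
  ext w; simp [SimpleGraph.mem_neighborSet]

/-- Degrees of a constituent do not depend on the vertex. -/
theorem deg_const (hc : IsPCC c) (i : κ) (u v : V) :
    deg (constituent c i) u = deg (constituent c i) v :=
  ncard_eq hc (P := fun a b => (constituent c i).Adj a b)
    (fun _ _ _ _ h => adj_iff hc i h) u v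

open Classical in
theorem diff_le (hc : IsPCC c) (i : κ) (o u : V) :
    diff c i o u = 2 * (univ.filter (fun z => (constituent c i).Adj o z ∧
      ¬ (constituent c i).Adj u z)).card := by
  classical
  set H := constituent c i with hH
  have h1 := deg_const hc i o u
  rw [deg_eq, deg_eq, ← hH] at h1
  have h2 := Finset.card_sdiff_comm h1
  have h3 : univ.filter (fun z => ¬ (H.Adj o z ↔ H.Adj u z)) =
      (univ.filter (fun z => H.Adj o z) \ univ.filter (fun z => H.Adj u z)) ∪
        (univ.filter (fun z => H.Adj u z) \ univ.filter (fun z => H.Adj o z)) := by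
    ext z
    simp only [Finset.mem_filter, Finset.mem_univ, true_and, Finset.mem_union, Finset.mem_sdiff]
    tauto
  have h4 : univ.filter (fun z => H.Adj o z ∧ ¬ H.Adj u z) =
      univ.filter (fun z => H.Adj o z) \ univ.filter (fun z => H.Adj u z) := by
    ext z
    simp only [Finset.mem_filter, Finset.mem_univ, true_and, Finset.mem_sdiff]
  rw [diff, ← hH, h3, Finset.card_union_of_disjoint, h4, ← h2]
  · ring
  · rw [Finset.disjoint_left]
    intro z hz hz'
    rw [Finset.mem_sdiff] at hz hz'
    exact hz.2 hz'.1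

/-- Opposite colours have the same symmetrised constituent. -/
theorem constituent_eq (hc : IsPCC c) {o y z : V} (hyz : (constituent c (c o y)).Adj o z) :
    constituent c (c o y) = constituent c (c o z) := by
  rw [constituent, SimpleGraph.fromRel_adj] at hyz
  rcases hyz.2 with h | h
  · rw [h]
  · ext a b
    rw [constituent, constituent, SimpleGraph.fromRel_adj, SimpleGraph.fromRel_adj, ← h]
    have h1 : ∀ a b, c a b = c z o ↔ c b a = c o z :=
      fun a b => ⟨fun h => hc.conv _ _ _ _ h, fun h => hc.conv _ _ _ _ h⟩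
    rw [h1 a b, h1 b a]
    tauto

open Classical in
/-- The normalised differences, summed over all vertices. -/
theorem sum_diff_le (hc : IsPCC c) {o u : V} (hou : o ≠ u) :
    ∑ y ∈ univ.erase o, (diff c (c o y) o u : ℝ) / (deg (constituent c (c o y)) o : ℝ) ≤
      2 * (distinguishing c o u : ℝ) - 2 := by
  classical
  have hrefl : ∀ y, y ≠ o → (constituent c (c o y)).Adj o y := by
    intro y hy
    rw [constituent, SimpleGraph.fromRel_adj]
    exact ⟨hy.symm, Or.inl rfl⟩
  have hdpos : ∀ y, y ≠ o → (0 : ℝ) < (deg (constituent c (c o y)) o : ℝ) := by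
    intro y hy
    rw [deg_eq]
    exact_mod_cast Finset.card_pos.2 ⟨y, by simp [hrefl y hy]⟩
  have h1 : ∀ y ∈ univ.erase o, (diff c (c o y) o u : ℝ) / (deg (constituent c (c o y)) o : ℝ) =
      2 * ∑ z, (if (constituent c (c o y)).Adj o z ∧ ¬ (constituent c (c o y)).Adj u z then
        (1 : ℝ) / (deg (constituent c (c o y)) o : ℝ) else 0) := by
    intro y _
    rw [diff_le hc, Finset.card_filter]
    push_cast
    rw [mul_div_assoc, Finset.sum_div]
    congr 1
    apply Finset.sum_congr rfl
    intro z _
    split_ifs <;> simp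
  rw [Finset.sum_congr rfl h1, ← Finset.mul_sum, Finset.sum_comm,
    show 2 * (distinguishing c o u : ℝ) - 2 = 2 * ((distinguishing c o u : ℝ) - 1) by ring]
  refine mul_le_mul_of_nonneg_left ?_ (by norm_num)
  have h2 : ∀ z, ∑ y ∈ univ.erase o, (if (constituent c (c o y)).Adj o z ∧
      ¬ (constituent c (c o y)).Adj u z then
        (1 : ℝ) / (deg (constituent c (c o y)) o : ℝ) else 0) ≤
      if z ≠ o ∧ c z o ≠ c z u then 1 else 0 := by
    intro z
    by_cases hzo : z = o
    · subst hzo
      have h3 : ∀ y ∈ univ.erase z, (if (constituent c (c z y)).Adj z z ∧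
          ¬ (constituent c (c z y)).Adj u z then
          (1 : ℝ) / (deg (constituent c (c z y)) z : ℝ) else 0) = 0 := by
        intro y _
        rw [if_neg]
        rintro ⟨h4, _⟩
        exact (SimpleGraph.irrefl _ h4)
      rw [Finset.sum_congr rfl h3, Finset.sum_const_zero]
      split_ifs <;> norm_num
    · -- rewrite in terms of the constituent of `z`
      have h3 : ∀ y ∈ univ.erase o, (if (constituent c (c o y)).Adj o z ∧
          ¬ (constituent c (c o y)).Adj u z then
          (1 : ℝ) / (deg (constituent c (c o y)) o : ℝ) else 0) =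
          if (constituent c (c o z)).Adj o y then
            (if (constituent c (c o z)).Adj u z then 0 else
              (1 : ℝ) / (deg (constituent c (c o z)) o : ℝ)) else 0 := by
        intro y hy
        rw [Finset.mem_erase] at hy
        by_cases h4 : (constituent c (c o y)).Adj o z
        · have h5 := constituent_eq hc h4
          have h6 : (constituent c (c o z)).Adj o y := h5 ▸ hrefl y hy.1
          rw [if_pos h6, ← h5]
          by_cases h7 : (constituent c (c o y)).Adj u z
          · rw [if_neg (fun hh => hh.2 h7), if_pos h7]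
          · rw [if_pos ⟨h4, h7⟩, if_neg h7]
        · have h6 : ¬ (constituent c (c o z)).Adj o y := by
            intro h7
            have h5 := constituent_eq hc h7
            exact h4 (h5 ▸ hrefl z hzo)
          rw [if_neg h6, if_neg (fun hh => h4 hh.1)]
      rw [Finset.sum_congr rfl h3]
      by_cases h8 : (constituent c (c o z)).Adj u z
      · simp only [if_pos h8]
        have : ∑ y ∈ univ.erase o, (if (constituent c (c o z)).Adj o y then (0 : ℝ) else 0) = 0 := by
          apply Finset.sum_eq_zero
          intro y _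
          split_ifs <;> rfl
        rw [this]
        split_ifs <;> norm_num
      · simp only [if_neg h8]
        have h9 : c z o ≠ c z u := by
          intro h10
          apply h8
          have h11 := hc.conv _ _ _ _ h10
          rw [constituent, SimpleGraph.fromRel_adj]
          refine ⟨?_, Or.inl h11.symm⟩
          rintro rfl
          exact hc.diag_ne _ _ _ hzo h10.symm
        rw [if_pos ⟨hzo, h9⟩, ← Finset.sum_filter, Finset.sum_const, nsmul_eq_mul]
        have h12 : ((univ.erase o).filter (fun y => (constituent c (c o z)).Adj o y)).card ≤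
            deg (constituent c (c o z)) o := by
          rw [deg_eq]
          apply Finset.card_le_card
          intro y hy
          rw [Finset.mem_filter] at hy ⊢
          exact ⟨Finset.mem_univ _, hy.2⟩
        have h13 : (((univ.erase o).filter
            (fun y => (constituent c (c o z)).Adj o y)).card : ℝ) ≤
            (deg (constituent c (c o z)) o : ℝ) := by exact_mod_cast h12
        have h14 := hdpos z hzo
        rw [mul_one_div, div_le_one h14]
        exact h13
  refine le_trans (Finset.sum_le_sum (fun z _ => h2 z)) ?_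
  rw [Finset.sum_boole, distinguishing, Set.ncard_eq_toFinset_card']
  have h3 : univ.filter (fun z => z ≠ o ∧ c z o ≠ c z u) =
      (Set.toFinset {w | c w o ≠ c w u}).erase o := by
    ext z; simp
  have h4 : o ∈ Set.toFinset {w | c w o ≠ c w u} := by
    rw [Set.mem_toFinset]
    exact hc.diag_ne o o u hou
  rw [h3, Finset.card_erase_of_mem h4, Nat.cast_sub (Finset.card_pos.2 ⟨o, h4⟩)]
  simp

theorem distinguishing_add_agree (x y : V) :
    distinguishing c x y + TwoSided.agree c x y = Fintype.card V := by
  classical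
  rw [distinguishing, TwoSided.agree, add_comm, ← Nat.card_eq_fintype_card]
  have h1 : {w | c w x ≠ c w y} = {w | c w x = c w y}ᶜ := by
    ext w; simp
  rw [h1]
  exact Set.ncard_add_ncard_compl _ (Set.toFinite _) (Set.toFinite _)

theorem distinguishing_colour (hc : IsPCC c) {x y x' y' : V} (h : c x y = c x' y') :
    distinguishing c x y = distinguishing c x' y' := by
  classical
  obtain ⟨σ, hσ⟩ := exists_equiv hc h
  rw [distinguishing, distinguishing]
  refine Set.ncard_congr (fun w _ => σ w) ?_ ?_ ?_
  · intro w hw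
    have h1 := hc.conv _ _ _ _ (hσ w).1
    change c (σ w) x' ≠ c (σ w) y'
    rw [h1, (hσ w).2]
    exact hw
  · intro w w' _ _ h1
    exact σ.injective h1
  · intro w hw
    refine ⟨σ.symm w, ?_, by simp⟩
    have h1 := hσ (σ.symm w)
    rw [Equiv.apply_symm_apply] at h1
    have h2 := hc.conv _ _ _ _ h1.1
    change c (σ.symm w) x ≠ c (σ.symm w) y
    rw [← h2, ← h1.2]
    exact hw

open Classical in
/-- **Main theorem.** -/
theorem result : ∀ (V κ : Type) [Fintype V] (c : V → V → κ), IsPCC c →
    ∀ L R : Subgroup (Equiv.Perm V),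
    (∀ a ∈ L, ∀ x y, c (a x) (a y) = c x y) → (∀ b ∈ R, ∀ x y, c (b x) (b y) = c x y) →
    (∀ x y, ∃ a ∈ L, a x = y) → (∀ x y, ∃ b ∈ R, b x = y) →
    (∀ a ∈ L, ∀ b ∈ R, a * b = b * a) →
    2 ≤ Fintype.card V →
    (∀ v, ∑ w ∈ univ.erase v,
      xi (constituent c (c v w)) / (deg (constituent c (c v w)) v : ℝ) ≤
        2 * (Dmin c : ℝ) - 2) ∧
    ∀ v, ∃ w, w ≠ v ∧
      (1 - (2 * (Dmin c : ℝ) - 2) / ((Fintype.card V : ℝ) - 1)) *
          (deg (constituent c (c v w)) v : ℝ) ≤
        (deg (constituent c (c v w)) v : ℝ) - xi (constituent c (c v w)) := by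
  intro V κ _ c hc L R hL hR htL htR hcomm hV2
  have hexw : ∀ v : V, ∃ w, w ≠ v := fun v =>
    Fintype.exists_ne_of_one_lt_card (by omega) v
  have h : TwoSided c L R := ⟨hL, hR, htL, htR, hcomm⟩
  have hrefl : ∀ v w, w ≠ v → (constituent c (c v w)).Adj v w := by
    intro v w hw
    rw [constituent, SimpleGraph.fromRel_adj]
    exact ⟨hw.symm, Or.inl rfl⟩
  have hdpos : ∀ v w, w ≠ v → (0 : ℝ) < (deg (constituent c (c v w)) v : ℝ) := by
    intro v w hw
    rw [deg_eq]
    exact_mod_cast Finset.card_pos.2 ⟨w, by simp [hrefl v w hw]⟩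
  have main : ∀ v, ∑ w ∈ univ.erase v,
      xi (constituent c (c v w)) / (deg (constituent c (c v w)) v : ℝ) ≤
        2 * (Dmin c : ℝ) - 2 := by
    intro o
    obtain ⟨w₀, hw₀⟩ := hexw o
    have hne : Nonempty V := ⟨o⟩
    have hnz : NeZero (Fintype.card V) := ⟨Fintype.card_ne_zero⟩
    have hne' : {d | ∃ a b, a ≠ b ∧ d = distinguishing c a b}.Nonempty :=
      ⟨_, w₀, o, hw₀, rfl⟩
    obtain ⟨a, b, hab, hD⟩ := Nat.sInf_mem hne'
    have hDmin : Dmin c = distinguishing c a b := hD
    obtain ⟨g, hg, hga⟩ := htR a b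
    have hgo : g o ≠ o := by
      intro h1
      have h2 := h.free hg h1
      rw [h2] at hga
      exact hab hga
    have hDo : distinguishing c o (g o) = Dmin c := by
      rw [hDmin, ← hga]
      exact distinguishing_colour hc (h.unif hg o a)
    have hDu : ∀ u : (ZMod (Fintype.card V))ˣ,
        distinguishing c o ((g ^ ((u : ZMod (Fintype.card V)).val)) o) = Dmin c := by
      intro u
      obtain ⟨p, hpp, hpn, hpu⟩ := exists_prime_unit (V := V) u
      rw [pow_val_eq h hg hpu]
      have h3 := h.agree_pow hc hpp hpn hg o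
      have h4 := distinguishing_add_agree (c := c) o ((g ^ p) o)
      have h5 := distinguishing_add_agree (c := c) o (g o)
      omega
    set φ : ℝ := (Fintype.card (ZMod (Fintype.card V))ˣ : ℝ) with hφ
    have hφ0 : 0 < φ := by
      rw [hφ]; exact_mod_cast Fintype.card_pos
    have h6 : ∀ w ∈ univ.erase o,
        xi (constituent c (c o w)) / (deg (constituent c (c o w)) o : ℝ) ≤
          (1 / φ) * ∑ u : (ZMod (Fintype.card V))ˣ,
            (diff c (c o w) o ((g ^ ((u : ZMod (Fintype.card V)).val)) o) : ℝ) /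
              (deg (constituent c (c o w)) o : ℝ) := by
      intro w hw
      have h7 := xi_le h hc hg o hgo (c o w)
      have h8 := hdpos o w (Finset.ne_of_mem_erase hw)
      rw [← hφ] at h7
      rw [← Finset.sum_div, ← mul_div_assoc]
      refine div_le_div_of_nonneg_right ?_ h8.le
      have h9 : xi (constituent c (c o w)) =
          (1 / φ) * (xi (constituent c (c o w)) * φ) := by
        field_simp
      rw [h9]
      exact mul_le_mul_of_nonneg_left h7 (by positivity)
    refine le_trans (Finset.sum_le_sum h6) ?_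
    rw [← Finset.mul_sum, Finset.sum_comm]
    have h10 : ∑ u : (ZMod (Fintype.card V))ˣ, ∑ w ∈ univ.erase o,
        (diff c (c o w) o ((g ^ ((u : ZMod (Fintype.card V)).val)) o) : ℝ) /
          (deg (constituent c (c o w)) o : ℝ) ≤ φ * (2 * (Dmin c : ℝ) - 2) := by
      have h11 : ∀ u : (ZMod (Fintype.card V))ˣ, ∑ w ∈ univ.erase o,
          (diff c (c o w) o ((g ^ ((u : ZMod (Fintype.card V)).val)) o) : ℝ) /
            (deg (constituent c (c o w)) o : ℝ) ≤ 2 * (Dmin c : ℝ) - 2 := by
        intro u
        have hou : o ≠ (g ^ ((u : ZMod (Fintype.card V)).val)) o := by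
          intro h13
          have h14 := hDu u
          rw [← h13, hDmin] at h14
          have h15 : distinguishing c o o = 0 := by simp [distinguishing]
          rw [h15] at h14
          have h16 : 0 < distinguishing c a b := by
            rw [distinguishing, Set.ncard_pos (Set.toFinite _)]
            exact ⟨a, hc.diag_ne a a b hab⟩
          omega
        have h12 := sum_diff_le hc hou
        rw [hDu u] at h12
        convert h12
      refine le_trans (Finset.sum_le_sum (fun u _ => h11 u)) ?_
      rw [Finset.sum_const, nsmul_eq_mul, Finset.card_univ]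
    calc (1 / φ) * _ ≤ (1 / φ) * (φ * (2 * (Dmin c : ℝ) - 2)) :=
          mul_le_mul_of_nonneg_left h10 (by positivity)
      _ = 2 * (Dmin c : ℝ) - 2 := by field_simp
  refine ⟨main, ?_⟩
  intro v
  obtain ⟨w₀, hw₀⟩ := hexw v
  by_contra hcon
  push Not at hcon
  have hcard : ((univ.erase v).card : ℝ) = (Fintype.card V : ℝ) - 1 := by
    rw [Finset.card_erase_of_mem (Finset.mem_univ v), Finset.card_univ, Nat.cast_sub]
    · simp
    · have : Nonempty V := ⟨v⟩
      exact Fintype.card_pos
  have hpos : 0 < ((univ.erase v).card : ℝ) := by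
    have : w₀ ∈ univ.erase v := Finset.mem_erase.2 ⟨hw₀, Finset.mem_univ _⟩
    exact_mod_cast Finset.card_pos.2 ⟨w₀, this⟩
  have h1 : ∀ w ∈ univ.erase v, (2 * (Dmin c : ℝ) - 2) / ((Fintype.card V : ℝ) - 1) <
      xi (constituent c (c v w)) / (deg (constituent c (c v w)) v : ℝ) := by
    intro w hw
    have hw' := Finset.ne_of_mem_erase hw
    have h2 := hcon w hw'
    have h3 := hdpos v w hw'
    rw [lt_div_iff₀ h3]
    linarith
  have h2 : ∑ w ∈ univ.erase v, (2 * (Dmin c : ℝ) - 2) / ((Fintype.card V : ℝ) - 1) <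
      ∑ w ∈ univ.erase v, xi (constituent c (c v w)) / (deg (constituent c (c v w)) v : ℝ) :=
    Finset.sum_lt_sum_of_nonempty ⟨w₀, Finset.mem_erase.2 ⟨hw₀, Finset.mem_univ _⟩⟩ h1
  rw [Finset.sum_const, nsmul_eq_mul, hcard] at h2
  rw [hcard] at hpos
  rw [mul_div_cancel₀ _ hpos.ne'] at h2
  exact absurd (main v) (not_le.2 h2)

end Pool.Agent.Results.MP_7beb49_co.TranslationSchemes
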